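import Pool.Agent.W5h1.ZD.P7

/-!
# MP_3d0d30_nt: the critical order `√(log T / log log T)` in Q2

`Z t = |ζ(1/2 + it)|`, `M_k(T) = ∫_0^T Z(t)^{2k} dt`, `Good k T` is the inequality `M_k(T) ≤ T (log T)^{k²}` of Q2,
`Q2` says that it holds for all `k ≥ 2` and `T > 1000`, `Large V T` is the set of the `t ∈ [0, T]` with `Z t > V`,
and `Gauss T` is the bound `T (log T)^{-α²}`, `α ≥ 2`, for the measure of `Large ((log T)^α) T`
(definitions in `ReductionsAndLargeValues`). `L = log T`, `l = log log T`.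

A large value of the zeta function on `[0, T]` persists on an interval of length `c / log T` of
`[0, 2T]` (three lines theorem with a Gaussian factor, applied near a point which is
maximal up to a factor `exp |t - t₀|`). So the inequality of Q2 for the order `k` gives
`Z ≤ L^{(k + (L/l + 1)/k)/2 + ε}` uniformly in `k`, and then the inequality for all orders
`k' ≥ max (k, (L/l + 1)/k + ε)`: a duality of orders, whose fixed point is `√(L/l)` up to `o(1)`.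
Hence only the orders `k ≤ √(L/l) + O(1)` matter in Q2.
-/

set_option autoImplicit false

open Complex MeasureTheory Set Filter Topology
open Pool.Agent.Results.MP_3d0d30_nt.ReductionsAndLargeValues

namespace Pool.Agent.Results.MP_3d0d30_nt.CriticalOrder

/-- The critical order `√(log T / log log T)`. -/
noncomputable def crit (T : ℝ) : ℝ := Real.sqrt (Real.log T / Real.log (Real.log T))

/-- The inequality of Q2 for all orders `k ≥ (log T)^{β + ε}`, for every `ε > 0` and `T ≥ T₀(ε)`. -/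
def OrdersAbove (β : ℝ) : Prop := ∀ ε : ℝ, 0 < ε → ∃ T₀ : ℝ, ∀ T : ℝ, T₀ ≤ T → ∀ k : ℝ, 2 ≤ k →
  Real.log T ^ (β + ε) ≤ k → Good k T

/-- The inequality of Q2 for some order `k ≥ 1` with `(log T)^{1 - β - ε} ≤ k ≤ (log T)^{β + ε}`, for every `ε > 0`
and `T ≥ T₀(ε)`. -/
def OneOrder (β : ℝ) : Prop := ∀ ε : ℝ, 0 < ε → ∃ T₀ : ℝ, ∀ T : ℝ, T₀ ≤ T →
  ∃ k : ℝ, 1 ≤ k ∧ Real.log T ^ (1 - β - ε) ≤ k ∧ k ≤ Real.log T ^ (β + ε) ∧ Good k T

/-- `|ζ(1/2 + it)| ≤ exp ((log t)^{β + ε})` for every `ε > 0` and `t ≥ t₀(ε)`. -/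
def MaxBound (β : ℝ) : Prop := ∀ ε : ℝ, 0 < ε → ∃ t₀ : ℝ, ∀ t : ℝ, t₀ ≤ t →
  Z t ≤ Real.exp (Real.log t ^ (β + ε))

theorem result :
    -- (1) Q2 is its part with orders up to the critical one, explicit
    (Q2 ↔ ∀ k T : ℝ, 5 * 10 ^ 12 < T → 2 + 7 / (5 * Real.log T) < k → k ≤ crit T + 4 →
      Real.log T ^ k ≤ 4 * (T / (2 * Real.pi)) ^ (1 / 4 : ℝ) + 1 → Good k T) ∧
    (∀ ε : ℝ, 0 < ε → ∃ T₀ : ℝ, ∀ T : ℝ, T₀ ≤ T →
      -- (2) one order bounds the maximum, uniformly in the order, and the duality of orders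
      (∀ k : ℝ, 1 ≤ k → Good k (2 * T) → ∀ t ∈ Icc (0:ℝ) T,
        Z t ≤ Real.log T ^ ((k + (Real.log T / Real.log (Real.log T) + 1) / k) / 2 + ε)) ∧
      (∀ k k' : ℝ, 1 ≤ k → Good k T → Good k (2 * T) → k ≤ k' →
        (Real.log T / Real.log (Real.log T) + 1) / k + ε ≤ k' → Good k' T) ∧
      -- (3) the critical order
      (Good (crit T) T → Good (crit (2 * T)) (2 * T) →
        (∀ t ∈ Icc (0:ℝ) T, Z t ≤ Real.log T ^ ε *
          Real.exp (Real.sqrt (Real.log T * Real.log (Real.log T)))) ∧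
        ∀ k : ℝ, crit T + ε ≤ k → Good k T)) ∧
    (Q2 → ∀ ε : ℝ, 0 < ε → ∃ t₀ : ℝ, ∀ t : ℝ, t₀ ≤ t → Z t ≤ Real.log t ^ ε *
      Real.exp (Real.sqrt (Real.log t * Real.log (Real.log t)))) ∧
    -- (4) only the orders, and only the levels, up to the critical one matter
    (∀ ε : ℝ, 0 < ε → ∃ T₀ : ℝ, ∀ T₁ : ℝ, T₀ ≤ T₁ →
      ((∀ T : ℝ, T₁ ≤ T → ∀ k : ℝ, 2 ≤ k → Good k T) ↔
        ∀ T : ℝ, T₁ ≤ T → ∀ k : ℝ, 2 ≤ k → k ≤ crit T + ε → Good k T) ∧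
      ((∀ T : ℝ, T₁ ≤ T → Gauss T) ↔
        ∀ T : ℝ, T₁ ≤ T → ∀ α : ℝ, 2 ≤ α → α ≤ crit T + ε →
          volume.real (Large (Real.log T ^ α) T) ≤ T * Real.log T ^ (-α ^ 2))) ∧
    -- (5) for a given `T` about `√(log T)` orders suffice
    (∀ ε : ℝ, 0 < ε → ∃ T₀ : ℝ, ∀ T : ℝ, T₀ ≤ T → ∀ Δ : ℝ, 0 < Δ →
      Δ ^ 2 * Real.log (Real.log T) ≤ 1 → Good (crit (2 * T)) (2 * T) →
      (∀ n : ℕ, 1 ≤ n → 2 + n * Δ ≤ crit T + ε + Δ →
        M (2 + n * Δ) T ≤ 7 / 9 * (T * Real.log T ^ ((2 + n * Δ) ^ 2))) →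
      ∀ k : ℝ, 2 ≤ k → Good k T) ∧
    -- (6) powers of `log T`
    (∀ β : ℝ, 1 / 2 ≤ β → [OrdersAbove β, OneOrder β, MaxBound β].TFAE) := by
  refine ⟨Pool.Agent.W5h1.ZD.q2_iff, ?_, ?_, ?_, fun ε hε => Pool.Agent.W5h1.ZD.finite_orders hε,
    fun β hβ => ?_⟩
  · intro ε hε
    obtain ⟨T₀, hT₀, h1⟩ := Pool.Agent.W5h1.ZD.sup_all hε
    obtain ⟨T₁, -, h2⟩ := Pool.Agent.W5h1.ZD.dual hε
    obtain ⟨T₂, -, h3⟩ := Pool.Agent.W5h1.ZD.above hε
    refine ⟨max T₀ (max T₁ T₂), fun T hT => ?_⟩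
    have ha : T₀ ≤ T := (le_max_left _ _).trans hT
    have hb : T₁ ≤ T := (le_max_left _ _).trans ((le_max_right _ _).trans hT)
    have hc : T₂ ≤ T := (le_max_right _ _).trans ((le_max_right _ _).trans hT)
    refine ⟨fun k hk hg t ht => h1 T ha k hk hg t ht,
      fun k k' hk hg hg2 hkk hk' => h2 T hb k hk hg hg2 k' hkk hk', fun hg hg2 => ?_⟩
    obtain ⟨h4, h5⟩ := h3 T hc hg hg2
    refine ⟨fun t ht => ?_, h5⟩
    rw [← Pool.Agent.W5h1.ZD.rpow_crit (hT₀.trans ha)]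
    exact h4 t ht
  · intro hQ ε hε
    obtain ⟨T₀, hT₀, h3⟩ := Pool.Agent.W5h1.ZD.above hε
    obtain ⟨T₂, hT₂⟩ := eventually_atTop.1
      (Pool.Agent.W5h1.ZD.tend_crit.eventually_ge_atTop 2)
    refine ⟨max T₀ (max T₂ 1001), fun t ht => ?_⟩
    have ha : T₀ ≤ t := (le_max_left _ _).trans ht
    have hb : T₂ ≤ t := (le_max_left _ _).trans ((le_max_right _ _).trans ht)
    have hc : 1001 ≤ t := (le_max_right _ _).trans ((le_max_right _ _).trans ht)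
    rw [← Pool.Agent.W5h1.ZD.rpow_crit (hT₀.trans ha)]
    exact (h3 t ha (hQ _ _ (hT₂ t hb) (by linarith))
      (hQ _ _ (hT₂ (2 * t) (by linarith)) (by linarith))).1 t ⟨by linarith, le_rfl⟩
  · intro ε hε
    obtain ⟨T₀, -, h3⟩ := Pool.Agent.W5h1.ZD.above hε
    obtain ⟨T₂, hT₂⟩ := eventually_atTop.1
      (Pool.Agent.W5h1.ZD.tend_crit.eventually_ge_atTop 2)
    obtain ⟨T₃, hT₃⟩ := Pool.Agent.W5h1.ZD.gauss_iff hε
    refine ⟨max T₃ (max T₀ (max T₂ 0)), fun T₁ hT₁ => ⟨⟨fun h T hT k hk _ => h T hT k hk,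
      fun h T hT k hk => ?_⟩, hT₃ T₁ ((le_max_left _ _).trans hT₁)⟩⟩
    have hT' : max T₀ (max T₂ 0) ≤ T := (le_max_right _ _).trans (hT₁.trans hT)
    have ha : T₀ ≤ T := (le_max_left _ _).trans hT'
    have hb : T₂ ≤ T := (le_max_left _ _).trans ((le_max_right _ _).trans hT')
    have hc : 0 ≤ T := (le_max_right _ _).trans ((le_max_right _ _).trans hT')
    rcases le_total k (crit T + ε) with h4 | h4
    · exact h T hT k hk h4
    · exact (h3 T ha (h T hT _ (hT₂ T hb) (by unfold crit Pool.Agent.W5h1.ZD.crit; linarith))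
        (h (2 * T) (by linarith) _ (hT₂ (2 * T) (by linarith))
          (by unfold crit Pool.Agent.W5h1.ZD.crit; linarith))).2 k h4
  · tfae_have 1 → 2 := fun h ε hε => Pool.Agent.W5h1.ZD.one_of_orders hβ h hε
    tfae_have 2 → 3 := fun h ε hε => Pool.Agent.W5h1.ZD.max_of_one hβ h hε
    tfae_have 3 → 1 := fun h ε hε => Pool.Agent.W5h1.ZD.orders_of_max hβ h hε
    tfae_finish

end Pool.Agent.Results.MP_3d0d30_nt.CriticalOrder
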