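import Pool.Agent.W5h69.ZT2

/-!
# MP_3d0d30_nt: the inequality of Q2 for large orders, and the order of the zeta function

`Z t = |ζ(1/2 + it)|`, `M_k(T) = ∫_0^T Z(t)^{2k} dt`, `Good k T` is the inequality `M_k(T) ≤ T (log T)^{k²}` of Q2, and
`Q2` says that it holds for all `k ≥ 2` and `T > 1000` (definitions in `ReductionsAndLargeValues`).

For `k = x log T / log log T` the inequality of Q2 is equivalent, up to an arbitrarily small change
of `x`, to the bound `|ζ(1/2 + it)| ≤ T^{x/2}`, `0 ≤ t ≤ T`. The fourth moment with an explicit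
constant (starting files) gives one direction; for the other one a large value gives a large moment
since the zeta function has a derivative of at most polynomial size (for a fixed order: since large
values of the zeta function persist at the scale one, starting library).
-/

set_option autoImplicit false

open Complex MeasureTheory Set Filter Topology
open Pool.Agent.Results.MP_3d0d30_nt.ReductionsAndLargeValues
open Pool.Agent.W5h69.ZT

namespace Pool.Agent.Results.MP_3d0d30_nt.LargeOrders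

/-- For every `c' > c` the inequality of Q2 holds for all large `T` and all orders
`k ≥ c' log T / log log T`. -/
def AllLargeOrders (c : ℝ) : Prop := ∀ c' : ℝ, c < c' → ∃ T₀ : ℝ, ∀ T : ℝ, T₀ ≤ T → ∀ k : ℝ,
  2 ≤ k → c' * Real.log T ≤ k * Real.log (Real.log T) → Good k T

/-- For every `c' > c`, `δ > 0` and `K`, for all large `T` the inequality of Q2 holds for some
`T' ∈ [T, T^{1 + δ}]` and some order `k` with `K ≤ k ≤ c' log T' / log log T'`. -/
def SomeOrder (c : ℝ) : Prop := ∀ c' : ℝ, c < c' → ∀ δ : ℝ, 0 < δ → ∀ K : ℝ, ∃ T₀ : ℝ, ∀ T : ℝ,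
  T₀ ≤ T → ∃ T' : ℝ, T ≤ T' ∧ T' ≤ T ^ (1 + δ) ∧ ∃ k : ℝ, K ≤ k ∧
    k * Real.log (Real.log T') ≤ c' * Real.log T' ∧ Good k T'

/-- `|ζ(1/2 + it)| ≤ t^{c/2 + ε}` for every `ε > 0` and all large `t`. For `c = 0` this is the
Lindelöf hypothesis. -/
def Exponent (c : ℝ) : Prop := ∀ ε : ℝ, 0 < ε → ∃ t₀ : ℝ, ∀ t : ℝ, t₀ ≤ t →
  ‖riemannZeta (1 / 2 + t * I)‖ ≤ t ^ (c / 2 + ε)

lemma some_of_all {c : ℝ} (hc : 0 ≤ c) (h : AllLargeOrders c) : SomeOrder c := by
  intro c' hc' δ hδ K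
  obtain ⟨T₀, hT₀⟩ := h c' hc'
  have hlim := tend_ratio.const_mul_atTop (show 0 < c' by linarith)
  obtain ⟨T₁, hT₁⟩ := eventually_atTop.1 (hlim.eventually_ge_atTop (max K 2))
  refine ⟨max (max T₀ T₁) 1000, fun T hT => ?_⟩
  have h0 : T₀ ≤ T := (le_max_left _ _).trans ((le_max_left _ _).trans hT)
  have h1 : T₁ ≤ T := (le_max_right _ _).trans ((le_max_left _ _).trans hT)
  have h2 : 1000 ≤ T := (le_max_right _ _).trans hT
  have h3 := hT₁ T h1
  have hll : 0 < Real.log (Real.log T) := by linarith [loglog_ge h2]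
  have e : c' * (Real.log T / Real.log (Real.log T)) * Real.log (Real.log T) =
      c' * Real.log T := by
    field_simp
  refine ⟨T, le_rfl, ?_, c' * (Real.log T / Real.log (Real.log T)), (le_max_left _ _).trans h3,
    e.le, hT₀ T h0 _ ((le_max_right _ _).trans h3) e.ge⟩
  calc T = T ^ (1:ℝ) := (Real.rpow_one T).symm
    _ ≤ T ^ (1 + δ) := Real.rpow_le_rpow_of_exponent_le (by linarith) (by linarith)

lemma exponent_of_some {c : ℝ} (hc : 0 ≤ c) (h : SomeOrder c) : Exponent c := by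
  intro ε hε
  -- parameters
  obtain ⟨δ, hδ0, hδ⟩ : ∃ δ : ℝ, 0 < δ ∧ (1 + δ) * (c / 2 + ε / 2) ≤ c / 2 + ε := by
    refine ⟨(ε / 2) / (c / 2 + ε / 2), by positivity, ?_⟩
    have h0 : 0 < c / 2 + ε / 2 := by linarith
    have : (1 + (ε / 2) / (c / 2 + ε / 2)) * (c / 2 + ε / 2) = c / 2 + ε / 2 + ε / 2 := by
      field_simp
    linarith
  obtain ⟨T₁, hT₁, hs⟩ := sup_of_good (ε := ε / 4) (by linarith)
  obtain ⟨T₀, hT₀⟩ := h (c + ε / 2) (by linarith) δ hδ0 (max 1 (2 / (ε / 4)))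
  refine ⟨max T₀ T₁, fun t ht => ?_⟩
  have h0 : T₀ ≤ t := (le_max_left _ _).trans ht
  have h1 : T₁ ≤ t := (le_max_right _ _).trans ht
  obtain ⟨T', hT1, hT2, k, hk, hkl, hg⟩ := hT₀ t h0
  have h3 : 1000 ≤ T' := by linarith
  have h4 := hs T' (h1.trans hT1) k ((le_max_left _ _).trans hk) ((le_max_right _ _).trans hk) hg t
    ⟨by linarith, hT1⟩
  have h5 : Real.log T' ^ (k / 2) ≤ T' ^ ((c + ε / 2) / 2) := log_le_rpow h3 (by linarith)
  have hT0 : 0 < T' := by linarith
  have h6 : Z t ≤ T' ^ (c / 2 + ε / 2) := by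
    calc Z t ≤ T' ^ (ε / 4) * Real.log T' ^ (k / 2) := h4
      _ ≤ T' ^ (ε / 4) * T' ^ ((c + ε / 2) / 2) := by gcongr
      _ = T' ^ (c / 2 + ε / 2) := by
        rw [← Real.rpow_add hT0]
        congr 1
        ring
  have ht0 : 1000 ≤ t := by linarith
  calc Z t ≤ T' ^ (c / 2 + ε / 2) := h6
    _ ≤ (t ^ (1 + δ)) ^ (c / 2 + ε / 2) := Real.rpow_le_rpow hT0.le hT2 (by linarith)
    _ = t ^ ((1 + δ) * (c / 2 + ε / 2)) := by rw [← Real.rpow_mul (by linarith)]
    _ ≤ t ^ (c / 2 + ε) := Real.rpow_le_rpow_of_exponent_le (by linarith) hδ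

lemma all_of_exponent {c : ℝ} (hc : 0 ≤ c) (h : Exponent c) : AllLargeOrders c := by
  intro c' hc'
  obtain ⟨T₀, hT₀, hs⟩ := sup_of_exp (a := c / 2 + (c' - c) / 4) (b := c' / 2) (by linarith)
    (by linarith) (h ((c' - c) / 4) (by linarith))
  refine ⟨T₀, fun T hT k hk hkl => ?_⟩
  have h3 : 1000 ≤ T := hT₀.trans hT
  have hll : 0 < Real.log (Real.log T) := by linarith [loglog_ge h3]
  refine good_of_sup h3 hk fun t ht => (hs T hT t ht).trans ?_
  apply rpow_le_log h3
  nlinarith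

/-- (1) For every `c ≥ 0` the three properties `AllLargeOrders c`, `SomeOrder c` and `Exponent c` are
equivalent. (2) Unconditionally they hold for `c = 1/3`. (3) For `T ≥ T₀(ε)` the inequality of Q2 for
one order `k ≥ 2/ε` implies `|ζ(1/2 + it)| ≤ T^ε (log T)^{k/2}` on `[0, T]` and the inequality of Q2
for all orders `k' ≥ 2`, `k' ≥ k - 2 + 2 ε log T / log log T`. (4) The inequality of Q2 for one fixed
order `k ≥ 1` and all large `T` implies the three properties for `c = 1/k`. (5) Q2 implies the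
Lindelöf hypothesis; under the Lindelöf hypothesis, for `T ≥ T₀(ε)`, only the orders
`k ≤ ε log T / log log T` of Q2 matter. -/
theorem result :
    -- (1) the threshold
    (∀ c : ℝ, 0 ≤ c → [AllLargeOrders c, SomeOrder c, Exponent c].TFAE) ∧
    -- (2) unconditionally
    AllLargeOrders (1 / 3) ∧
    -- (3) one order at a time
    (∀ ε : ℝ, 0 < ε → ∃ T₀ : ℝ, ∀ T : ℝ, T₀ ≤ T → ∀ k : ℝ, 1 ≤ k → 2 / ε ≤ k → Good k T →
      (∀ t ∈ Icc (0:ℝ) T, Z t ≤ T ^ ε * Real.log T ^ (k / 2)) ∧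
      ∀ k' : ℝ, 2 ≤ k' → k + 2 * ε * Real.log T / Real.log (Real.log T) ≤ k' + 2 → Good k' T) ∧
    -- (4) a fixed order
    (∀ k : ℝ, 1 ≤ k → (∃ T₀ : ℝ, ∀ T : ℝ, T₀ ≤ T → Good k T) →
      AllLargeOrders (1 / k) ∧ Exponent (1 / k)) ∧
    -- (5) Q2 and the Lindelöf hypothesis
    (Q2 → Exponent 0) ∧
    (Exponent 0 → ∀ ε : ℝ, 0 < ε → ∃ T₀ : ℝ, ∀ T : ℝ, T₀ ≤ T →
      ((∀ k : ℝ, 2 ≤ k → Good k T) ↔
        ∀ k : ℝ, 2 ≤ k → k ≤ ε * Real.log T / Real.log (Real.log T) → Good k T)) := by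
  have tfae : ∀ c : ℝ, 0 ≤ c → [AllLargeOrders c, SomeOrder c, Exponent c].TFAE := by
    intro c hc
    tfae_have 1 → 2 := some_of_all hc
    tfae_have 2 → 3 := exponent_of_some hc
    tfae_have 3 → 1 := all_of_exponent hc
    tfae_finish
  have h02 : AllLargeOrders 0 ↔ Exponent 0 := (tfae 0 le_rfl).out 0 2
  refine ⟨tfae, ?_, ?_, ?_, ?_, ?_⟩
  · refine all_of_exponent (by norm_num) fun ε hε => ?_
    obtain ⟨t₀, -, h⟩ := weyl ε hε
    refine ⟨t₀, fun t ht => ?_⟩
    have e : (1 / 3 : ℝ) / 2 + ε = 1 / 6 + ε := by norm_num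
    rw [e]
    exact h t ht
  · intro ε hε
    obtain ⟨T₀, hT₀, hs⟩ := sup_of_good hε
    refine ⟨T₀, fun T hT k hk1 hk hg => ⟨hs T hT k hk1 hk hg, fun k' hk' hkk => ?_⟩⟩
    have h3 : 1000 ≤ T := hT₀.trans hT
    have hl0 : 0 < Real.log T := by linarith [log_ge h3]
    have hll : 0 < Real.log (Real.log T) := by linarith [loglog_ge h3]
    refine good_of_sup h3 hk' fun t ht => (hs T hT k hk1 hk hg t ht).trans ?_
    have h4 : T ^ ε ≤ Real.log T ^ (ε * Real.log T / Real.log (Real.log T)) := by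
      apply rpow_le_log h3
      apply le_of_eq
      field_simp
    calc T ^ ε * Real.log T ^ (k / 2)
        ≤ Real.log T ^ (ε * Real.log T / Real.log (Real.log T)) * Real.log T ^ (k / 2) := by gcongr
      _ = Real.log T ^ (ε * Real.log T / Real.log (Real.log T) + k / 2) :=
        (Real.rpow_add hl0 _ _).symm
      _ ≤ Real.log T ^ ((k' + 2) / 2) := by
        apply Real.rpow_le_rpow_of_exponent_le (by linarith [log_ge h3])
        have e : 2 * ε * Real.log T / Real.log (Real.log T) =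
            2 * (ε * Real.log T / Real.log (Real.log T)) := by ring
        rw [e] at hkk
        linarith
  · intro k hk h
    have hE : Exponent (1 / k) := by
      intro ε hε
      obtain ⟨t₀, ht₀⟩ := sup_of_fixed hk h hε
      refine ⟨t₀, fun t ht => ?_⟩
      have e : 1 / k / 2 + ε = 1 / (2 * k) + ε := by
        field_simp
      rw [e]
      exact ht₀ t ht
    exact ⟨all_of_exponent (by positivity) hE, hE⟩
  · intro hQ
    exact h02.1 fun c' _ => ⟨1001, fun T hT k hk _ => hQ k T hk (by linarith)⟩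
  · intro hE ε hε
    obtain ⟨T₀, hT₀⟩ := h02.2 hE ε hε
    refine ⟨max T₀ 1000, fun T hT => ⟨fun h k hk _ => h k hk, fun h k hk => ?_⟩⟩
    have h0 : T₀ ≤ T := (le_max_left _ _).trans hT
    have h3 : 1000 ≤ T := (le_max_right _ _).trans hT
    have hll : 0 < Real.log (Real.log T) := by linarith [loglog_ge h3]
    rcases le_total k (ε * Real.log T / Real.log (Real.log T)) with h4 | h4
    · exact h k hk h4
    · rw [div_le_iff₀ hll] at h4
      exact hT₀ T h0 k hk h4

end Pool.Agent.Results.MP_3d0d30_nt.LargeOrders
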